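import Pool.Agent.Q168.AchB

set_option autoImplicit false
open Set Topology Filter

namespace Pool.Agent.Results.MP_dc2775_an.MeagerOrComeager

/-- An ideal of subsets of `ℕ`: closed under finite unions and subsets, containing all finite sets,
not containing `ℕ`. -/
structure IsIdeal (I : Set (Set ℕ)) : Prop where
  union : ∀ A ∈ I, ∀ B ∈ I, A ∪ B ∈ I
  subset : ∀ A ∈ I, ∀ B, B ⊆ A → B ∈ I
  fin : ∀ A : Set ℕ, A.Finite → A ∈ I
  proper : (univ : Set ℕ) ∉ I

/-- The series `∑_{n ∈ A} x_n` converges to `s`. -/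
def SumsTo (x : ℕ → ℝ) (A : Set ℕ) (s : ℝ) : Prop :=
  Tendsto (fun N => ∑ n ∈ Finset.range N, A.indicator x n) atTop (𝓝 s)

/-- The achievement set `A(x_n)`. -/
def achieve (x : ℕ → ℝ) : Set ℝ := {s | ∃ A : Set ℕ, SumsTo x A s}

/-- The ideal achievement set `A_I(x_n)`. -/
def idealAchieve (I : Set (Set ℕ)) (x : ℕ → ℝ) : Set ℝ := {s | ∃ A ∈ I, SumsTo x A s}

/-- **An ideal achievement set with the Baire property is meager or comeager.**  The second
statement is the same for every family `J` which is invariant under finite changes. -/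
theorem result :
    (∀ (x : ℕ → ℝ), (∃ L, Tendsto (fun N => ∑ n ∈ Finset.range N, x n) atTop (𝓝 L)) →
      ∀ I : Set (Set ℕ), IsIdeal I →
      BaireMeasurableSet ((↑) ⁻¹' (idealAchieve I x) : Set (achieve x)) →
      IsMeagre ((↑) ⁻¹' (idealAchieve I x) : Set (achieve x)) ∨
        IsMeagre ((↑) ⁻¹' (idealAchieve I x) : Set (achieve x))ᶜ) ∧
    (∀ (x : ℕ → ℝ), (∃ L, Tendsto (fun N => ∑ n ∈ Finset.range N, x n) atTop (𝓝 L)) →
      ∀ J : Set (Set ℕ), (∀ A ∈ J, ∀ B : Set ℕ, (symmDiff A B).Finite → B ∈ J) →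
      BaireMeasurableSet ((↑) ⁻¹' (idealAchieve J x) : Set (achieve x)) →
      IsMeagre ((↑) ⁻¹' (idealAchieve J x) : Set (achieve x)) ∨
        IsMeagre ((↑) ⁻¹' (idealAchieve J x) : Set (achieve x))ᶜ) := by
  have main : ∀ (x : ℕ → ℝ), (∃ L, Tendsto (fun N => ∑ n ∈ Finset.range N, x n) atTop (𝓝 L)) →
      ∀ J : Set (Set ℕ), (∀ A ∈ J, ∀ B : Set ℕ, (symmDiff A B).Finite → B ∈ J) →
      BaireMeasurableSet ((↑) ⁻¹' (idealAchieve J x) : Set (achieve x)) →
      IsMeagre ((↑) ⁻¹' (idealAchieve J x) : Set (achieve x)) ∨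
        IsMeagre ((↑) ⁻¹' (idealAchieve J x) : Set (achieve x))ᶜ := by
    intro x hx J hJ hB
    have e : achieve x = Pool.Agent.Q168.AchA.Ach univ x := by
      ext s
      constructor
      · rintro ⟨A, hA⟩
        exact ⟨A, trivial, hA⟩
      · rintro ⟨A, _, hA⟩
        exact ⟨A, hA⟩
    have hx' : ∃ L, Pool.Agent.Q168.AchA.HasS x univ L := by
      obtain ⟨L, hL⟩ := hx
      refine ⟨L, ?_⟩
      unfold Pool.Agent.Q168.AchA.HasS Pool.Agent.Q168.AchA.pt
      simpa using hL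
    have hT : Pool.Agent.Q168.AchA.Tail J := by
      intro B B' n hBJ h
      refine hJ B hBJ B' (Set.Finite.subset (Set.finite_lt_nat n) ?_)
      intro k hk
      by_contra hc
      have hkn : n ≤ k := not_lt.1 hc
      rcases hk with ⟨h1, h2⟩ | ⟨h1, h2⟩
      · exact h2 ((h k hkn).2 h1)
      · exact h2 ((h k hkn).1 h1)
    rw [e] at hB ⊢
    have := Pool.Agent.Q168.AchB.zero_one hx' hT hB
    rcases this with h | h
    · exact Or.inl h
    · right
      rw [IsMeagre, compl_compl]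
      exact h
  refine ⟨?_, main⟩
  intro x hx I hI hB
  refine main x hx I ?_ hB
  intro A hA B hAB
  refine hI.subset (A ∪ symmDiff A B) (hI.union A hA _ (hI.fin _ hAB)) B ?_
  intro k hk
  by_cases h : k ∈ A
  · exact Or.inl h
  · exact Or.inr (Or.inr ⟨hk, h⟩)

end Pool.Agent.Results.MP_dc2775_an.MeagerOrComeager
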